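import Pool.Agent.Helper80K3.Main
import Pool.Agent.Y630.NW.Fault

/-!
Circuits for Partial MCSP without some of the negated inputs.
-/

set_option autoImplicit false

namespace Pool.Agent.Z45.MN

open Finset Pool.Agent.Helper80K3

section Model

variable {n : ℕ}

/-- The functions available to a circuit without negated inputs at the entries in `Z`: constants,
inputs, functions computed so far, and the negations of the inputs at the entries outside `Z`. -/
def NAv (Z : Set (Fin n → Bool)) (L : List (((Fin n → Bool) × Bool → Bool) → Bool))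
    (a : ((Fin n → Bool) × Bool → Bool) → Bool) : Prop :=
  MAv L a ∨ ∃ e : (Fin n → Bool) × Bool, e.1 ∉ Z ∧ a = fun σ => !σ e

/-- Circuits without negated inputs at the entries in `Z`. -/
inductive NProg (Z : Set (Fin n → Bool)) : List (((Fin n → Bool) × Bool → Bool) → Bool) → Prop
  | nil : NProg Z []
  | and {L : List (((Fin n → Bool) × Bool → Bool) → Bool)}
      {a b : ((Fin n → Bool) × Bool → Bool) → Bool} :
      NProg Z L → NAv Z L a → NAv Z L b → NProg Z ((fun σ => a σ && b σ) :: L)
  | or {L : List (((Fin n → Bool) × Bool → Bool) → Bool)}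
      {a b : ((Fin n → Bool) × Bool → Bool) → Bool} :
      NProg Z L → NAv Z L a → NAv Z L b → NProg Z ((fun σ => a σ || b σ) :: L)

end Model

section Host

variable {n₁ t : ℕ}

/-- the first bits -/
def pre (z : Fin (n₁ + t) → Bool) : Fin n₁ → Bool := fun i => z (Fin.castAdd t i)

/-- the last bits -/
def suf (z : Fin (n₁ + t) → Bool) : Fin t → Bool := fun j => z (Fin.natAdd n₁ j)

/-- both together -/
def glue (x : Fin n₁ → Bool) (u : Fin t → Bool) : Fin (n₁ + t) → Bool := Fin.append x u

@[simp] lemma pre_glue (x : Fin n₁ → Bool) (u : Fin t → Bool) : pre (glue x u) = x := by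
  funext i
  simp [pre, glue]

@[simp] lemma suf_glue (x : Fin n₁ → Bool) (u : Fin t → Bool) : suf (glue x u) = u := by
  funext i
  simp [suf, glue]

lemma glue_eta (z : Fin (n₁ + t) → Bool) : glue (pre z) (suf z) = z := by
  funext i
  refine Fin.addCases (fun i => ?_) (fun i => ?_) i
  · simp [pre, suf, glue]
  · simp [pre, suf, glue]

lemma glue_inj : Function.Injective (fun p : (Fin n₁ → Bool) × (Fin t → Bool) => glue p.1 p.2) := by
  rintro ⟨x, u⟩ ⟨x', u'⟩ h
  simp only at h
  have h1 := congrArg pre h
  have h2 := congrArg suf h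
  simp only [pre_glue, suf_glue] at h1 h2
  rw [h1, h2]

variable (g : (Fin n₁ → Bool) → (Fin t → Bool))

/-- the small input is written at the places `(x, g x)` -/
def host (v : (Fin n₁ → Bool) × Bool → Bool) : (Fin (n₁ + t) → Bool) × Bool → Bool :=
  fun e => decide (suf e.1 = g (pre e.1)) && v (pre e.1, e.2)

/-- the small table is written at the places `(x, g x)` -/
def hostT (T : PTable n₁) : PTable (n₁ + t) :=
  fun z => if suf z = g (pre z) then T (pre z) else none

lemma host_enc (T : PTable n₁) : host g (enc T) = enc (hostT g T) := by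
  funext e
  unfold host enc hostT
  by_cases h : suf e.1 = g (pre e.1)
  · simp [h]
  · simp [h]

lemma consistent_host (T : PTable n₁) (G : (Fin (n₁ + t) → Bool) → Bool) :
    Consistent (hostT g T) G ↔ Consistent T (fun x => G (glue x (g x))) := by
  constructor
  · intro h x b hx
    apply h
    unfold hostT
    rw [pre_glue, suf_glue, if_pos rfl]
    exact hx
  · intro h z b hz
    unfold hostT at hz
    split_ifs at hz with h1
    have h2 : G (glue (pre z) (g (pre z))) = b := h _ _ hz
    rw [← h1, glue_eta] at h2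
    exact h2

/-- monotone circuits for small inputs -/
lemma mav_host {Z : Set (Fin (n₁ + t) → Bool)} (hg : ∀ x, glue x (g x) ∈ Z)
    {L : List (((Fin (n₁ + t) → Bool) × Bool → Bool) → Bool)}
    {a : ((Fin (n₁ + t) → Bool) × Bool → Bool) → Bool} (ha : NAv Z L a) :
    MAv (L.map fun b v => b (host g v)) (fun v => a (host g v)) := by
  rcases ha with (h | ⟨e, rfl⟩ | ⟨c, rfl⟩) | ⟨e, he, rfl⟩
  · exact Or.inl (List.mem_map_of_mem (f := fun b v => b (host g v)) h)
  · by_cases h : suf e.1 = g (pre e.1)
    · refine Or.inr (Or.inl ⟨(pre e.1, e.2), ?_⟩)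
      funext v
      simp [host, h]
    · refine Or.inr (Or.inr ⟨false, ?_⟩)
      funext v
      simp [host, h]
  · exact Or.inr (Or.inr ⟨c, rfl⟩)
  · have h : ¬ suf e.1 = g (pre e.1) := by
      intro h
      apply he
      have := hg (pre e.1)
      rwa [← h, glue_eta] at this
    refine Or.inr (Or.inr ⟨true, ?_⟩)
    funext v
    simp [host, h]

lemma mprog_host {Z : Set (Fin (n₁ + t) → Bool)} (hg : ∀ x, glue x (g x) ∈ Z)
    {L : List (((Fin (n₁ + t) → Bool) × Bool → Bool) → Bool)} (hL : NProg Z L) :
    MProg (L.map fun b v => b (host g v)) := by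
  induction hL with
  | nil => exact MProg.nil
  | and _ ha hb ih => exact MProg.and ih (mav_host g hg ha) (mav_host g hg hb)
  | or _ ha hb ih => exact MProg.or ih (mav_host g hg ha) (mav_host g hg hb)

end Host

section Size

variable {n₁ t : ℕ}

lemma av_pre {L : List ((Fin n₁ → Bool) → Bool)} {a : (Fin n₁ → Bool) → Bool} (h : Av L a) :
    Av (n := n₁ + t) (L.map fun b z => b (pre z)) (fun z => a (pre z)) := by
  obtain ⟨c, ⟨b, hb, rfl⟩ | ⟨i, rfl⟩⟩ := h
  · exact ⟨c, Or.inl ⟨fun z => b (pre z), List.mem_map_of_mem (f := fun b z => b (pre z)) hb, rfl⟩⟩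
  · exact ⟨c, Or.inr ⟨Fin.castAdd t i, rfl⟩⟩

lemma circ_pre {L : List ((Fin n₁ → Bool) → Bool)} (h : Circ L) :
    Circ (n := n₁ + t) (L.map fun b z => b (pre z)) := by
  induction h with
  | nil => exact Circ.nil
  | and _ ha hb ih => exact Circ.and ih (av_pre ha) (av_pre hb)
  | or _ ha hb ih => exact Circ.or ih (av_pre ha) (av_pre hb)

lemma hasSize_pre {a : (Fin n₁ → Bool) → Bool} {s : ℕ} (h : HasSize a s) :
    HasSize (n := n₁ + t) (fun z => a (pre z)) s := by
  obtain ⟨L, h1, h2, h3⟩ := h
  exact ⟨_, circ_pre h1, by rw [List.length_map]; exact h2, av_pre h3⟩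

end Size

end Pool.Agent.Z45.MN
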