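import Pool.Agent.Z45.MN.Core

/-!
The lower bound for circuits for Partial MCSP without the negated inputs at a set of entries that
meets all fibres.
-/

set_option autoImplicit false

namespace Pool.Agent.Z45.MN

open Finset Pool.Agent.Helper80K3

theorem hidden {n₁ t w s s' : ℕ} (hn1 : 1 ≤ n₁) (hw : 1 ≤ w)
    (hs₀ : 9 * (n₁ + t) ^ 4 * w ^ 2 ≤ s) (hss : s ≤ s')
    (hs₀' : (n₁ + t) ^ 2 * s' ≤ 2 ^ (n₁ / 3))
    {Z : Set (Fin (n₁ + t) → Bool)} (hZ : ∀ x : Fin n₁ → Bool, ∃ u, glue x u ∈ Z)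
    {L : List (((Fin (n₁ + t) → Bool) × Bool → Bool) → Bool)} (hL : NProg Z L)
    {φ : ((Fin (n₁ + t) → Bool) × Bool → Bool) → Bool} (hφ : NAv Z L φ)
    (hrej : ∀ T : PTable (n₁ + t), (∃ G, HasSize G s ∧ Consistent T G) → φ (enc T) = false)
    (hacc : ∀ T : PTable (n₁ + t), (∀ G, HasSize G s' → ¬ Consistent T G) →
      φ (enc T) = true) : 2 ^ w ≤ L.length := by
  classical
  choose g hg using hZ
  have hle : n₁ ≤ n₁ + t := Nat.le_add_right _ _
  have hs : 9 * n₁ ^ 4 * w ^ 2 ≤ s :=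
    (Nat.mul_le_mul_right _ (Nat.mul_le_mul_left _ (Nat.pow_le_pow_left hle 4))).trans hs₀
  have hs' : n₁ ^ 2 * s' ≤ 2 ^ (n₁ / 3) :=
    (Nat.mul_le_mul_right _ (Nat.pow_le_pow_left hle 2)).trans hs₀'
  have hn : 29 ≤ n₁ := n_large hn1 hw hs hss hs'
  have hspos : 1 ≤ s' := by
    refine le_trans ?_ (hs.trans hss)
    have : 0 < 9 * n₁ ^ 4 * w ^ 2 := by positivity
    omega
  set m := 2 * ((n₁ + 3) * w) with hm
  have hnw : 1 ≤ (n₁ + 3) * w := Nat.succ_le_of_lt (by positivity)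
  have hmev : Even m := ⟨(n₁ + 3) * w, by rw [hm]; ring⟩
  set q := m - 1 with hq
  have hmq : m = q + 1 := by omega
  have hnw2 : 2 ≤ (n₁ + 3) * w := by nlinarith
  have hq2 : 2 ≤ q := by omega
  set k := (m + 1) * w with hk
  have hkpos : 0 < k := by rw [hk]; positivity
  obtain ⟨Ω, hΩ1, hΩ2, F, hU, hsize⟩ := exists_family n₁ (by omega) k hkpos
  have hksize : 1 + k * (4 * n₁ ^ 3) ≤ s := by
    refine le_trans ?_ hs
    have hww : w ≤ w ^ 2 := by nlinarith
    have h1 : k ≤ (2 * n₁ + 7) * w ^ 2 := by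
      have : k = 2 * (n₁ + 3) * w ^ 2 + w := by rw [hk, hm]; ring
      rw [this]
      nlinarith
    have h2 : k * (4 * n₁ ^ 3) ≤ (2 * n₁ + 7) * w ^ 2 * (4 * n₁ ^ 3) := Nat.mul_le_mul_right _ h1
    have h3 : (2 * n₁ + 7) * w ^ 2 * (4 * n₁ ^ 3) = 8 * n₁ ^ 4 * w ^ 2 + 28 * (n₁ ^ 3 * w ^ 2) := by
      ring
    have h4 : 29 * (n₁ ^ 3 * w ^ 2) ≤ n₁ ^ 4 * w ^ 2 := by
      calc 29 * (n₁ ^ 3 * w ^ 2) ≤ n₁ * (n₁ ^ 3 * w ^ 2) := Nat.mul_le_mul_right _ hn
        _ = n₁ ^ 4 * w ^ 2 := by ring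
    have h5 : 1 ≤ n₁ ^ 3 * w ^ 2 := Nat.succ_le_of_lt (by positivity)
    have h6 : 9 * n₁ ^ 4 * w ^ 2 = 8 * n₁ ^ 4 * w ^ 2 + n₁ ^ 4 * w ^ 2 := by ring
    omega
  -- cardinals
  have hX : Fintype.card (Fin n₁ → Bool) = 2 ^ n₁ := by
    rw [Fintype.card_fun, Fintype.card_bool, Fintype.card_fin]
  have hA : Fintype.card ((Fin n₁ → Bool) × Bool) = 2 ^ (n₁ + 1) := by
    rw [Fintype.card_prod, Fintype.card_bool, hX, pow_succ]
  set M := 2 ^ (n₁ / 3) with hM
  set N := Fintype.card (Fin M → (Fin n₁ → Bool) × Bool) with hN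
  have hM2 : 8 * M ^ 2 ≤ 2 ^ n₁ := by
    rw [hM, ← pow_mul]
    calc 8 * 2 ^ (n₁ / 3 * 2) = 2 ^ (3 + n₁ / 3 * 2) := by rw [pow_add]; norm_num
      _ ≤ 2 ^ n₁ := Nat.pow_le_pow_right (by norm_num) (by omega)
  -- condition h1
  have hc1 : 2 ^ w * (Tm (Fin n₁ → Bool) w).card ≤ 2 ^ q := by
    have h1 := card_Tm (Fin n₁ → Bool) w
    rw [hA] at h1
    have h2 : 2 ^ (n₁ + 1) + 1 ≤ 2 ^ (n₁ + 2) := by
      have : 1 ≤ 2 ^ (n₁ + 1) := Nat.one_le_two_pow
      rw [pow_succ 2 (n₁ + 1)]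
      omega
    calc 2 ^ w * (Tm (Fin n₁ → Bool) w).card ≤ 2 ^ w * (2 ^ (n₁ + 2)) ^ w := by
          apply Nat.mul_le_mul_left
          exact h1.trans (Nat.pow_le_pow_left h2 w)
      _ = 2 ^ ((n₁ + 3) * w) := by
          rw [← pow_mul, ← pow_add]
          congr 1
          ring
      _ ≤ 2 ^ q := Nat.pow_le_pow_right (by norm_num) (by omega)
  -- condition h2
  have hc2 : 8 * (1024 * m * w) ^ 2 * M ≤ Fintype.card ((Fin n₁ → Bool) × Bool) := by
    rw [hA]
    have h1 : 9 * (n₁ ^ 6 * w ^ 2) ≤ M := by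
      refine le_trans ?_ hs'
      calc 9 * (n₁ ^ 6 * w ^ 2) = n₁ ^ 2 * (9 * n₁ ^ 4 * w ^ 2) := by ring
        _ ≤ n₁ ^ 2 * s' := Nat.mul_le_mul_left _ (hs.trans hss)
    have h2 : 81 * n₁ ^ 12 * w ^ 4 ≤ M ^ 2 := by
      calc 81 * n₁ ^ 12 * w ^ 4 = (9 * (n₁ ^ 6 * w ^ 2)) ^ 2 := by ring
        _ ≤ M ^ 2 := Nat.pow_le_pow_left h1 2
    have h3 : 8 * (1024 * m * w) ^ 2 = 33554432 * ((n₁ + 3) ^ 2 * w ^ 4) := by
      rw [hm]; ring
    have h4 : 33554432 * ((n₁ + 3) ^ 2 * w ^ 4) ≤ 81 * n₁ ^ 12 * w ^ 4 := by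
      have h5 : 33554432 * (n₁ + 3) ^ 2 ≤ 81 * n₁ ^ 12 := by
        have h6 : (n₁ + 3) ^ 2 ≤ (2 * n₁) ^ 2 := Nat.pow_le_pow_left (by omega) 2
        have h7 : 29 ^ 10 ≤ n₁ ^ 10 := Nat.pow_le_pow_left hn 10
        calc 33554432 * (n₁ + 3) ^ 2 ≤ 33554432 * (2 * n₁) ^ 2 := Nat.mul_le_mul_left _ h6
          _ = 134217728 * n₁ ^ 2 := by ring
          _ ≤ (81 * 29 ^ 10) * n₁ ^ 2 := by
              apply Nat.mul_le_mul_right
              norm_num
          _ ≤ (81 * n₁ ^ 10) * n₁ ^ 2 := by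
              apply Nat.mul_le_mul_right
              exact Nat.mul_le_mul_left _ h7
          _ = 81 * n₁ ^ 12 := by ring
      calc 33554432 * ((n₁ + 3) ^ 2 * w ^ 4) = (33554432 * (n₁ + 3) ^ 2) * w ^ 4 := by ring
        _ ≤ (81 * n₁ ^ 12) * w ^ 4 := Nat.mul_le_mul_right _ h5
    rw [h3]
    calc 33554432 * ((n₁ + 3) ^ 2 * w ^ 4) * M ≤ M ^ 2 * M :=
          Nat.mul_le_mul_right _ (h4.trans h2)
      _ = 2 ^ (n₁ / 3 * 3) := by rw [hM]; rw [pow_mul]; ring
      _ ≤ 2 ^ (n₁ + 1) := Nat.pow_le_pow_right (by norm_num) (by omega)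
  -- the sample set
  set W := (univ : Finset (Fin M → (Fin n₁ → Bool) × Bool)).filter (fun θ =>
    Function.Injective (fun i => (θ i).1) ∧
      ∀ G ∈ easyF (n₁ + t) s', ¬ ∀ i, G (glue (θ i).1 (g (θ i).1)) = (θ i).2) with hWdef
  have hWinj : ∀ θ ∈ W, Function.Injective (fun i => (θ i).1) := by
    intro θ hθ
    rw [hWdef, Finset.mem_filter] at hθ
    exact hθ.2.1
  have hlen : (L.map fun b v => b (host g v)).length = L.length := List.length_map _
  rw [← hlen]
  apply mono_bound (F := F) (q := q) (M := M) hmev hmq hq2 hU le_rfl hw hc1 hc2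
    (mprog_host g hg hL) (mav_host g hg hφ) (W := W)
  · intro ω
    show φ (host g (inpf (F ω))) = false
    rw [← enc_total, host_enc]
    apply hrej
    refine ⟨fun z => F ω (pre z), hasSize_pre ((hsize ω).mono hksize), ?_⟩
    rw [consistent_host]
    intro x b hb
    show F ω (pre (glue x (g x))) = b
    rw [pre_glue]
    exact Option.some.inj hb
  · intro θ hθ
    exact inj_cons (hWinj θ hθ)
  · intro θ hθ
    show φ (host g (inp (Gs θ))) = true
    rw [← enc_tab (inj_cons (hWinj θ hθ)), host_enc]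
    apply hacc
    intro G hG hcons
    rw [consistent_host] at hcons
    have hθ' := hθ
    rw [hWdef, Finset.mem_filter] at hθ'
    exact hθ'.2.2 G (mem_easyF hG) (cons_tab (hWinj θ hθ) hcons)
  · -- the size of the sample set
    set B1 := (univ : Finset (Fin M → (Fin n₁ → Bool) × Bool)).filter
      (fun θ => ¬ Function.Injective (fun i => (θ i).1)) with hB1
    set B2 := (easyF (n₁ + t) s').biUnion (fun G =>
      (univ : Finset (Fin M → (Fin n₁ → Bool) × Bool)).filter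
        (fun θ => ∀ i, G (glue (θ i).1 (g (θ i).1)) = (θ i).2)) with hB2
    have hcover : (univ : Finset (Fin M → (Fin n₁ → Bool) × Bool)) ⊆ W ∪ (B1 ∪ B2) := by
      intro θ _
      by_cases h1 : Function.Injective (fun i => (θ i).1)
      · by_cases h2 : ∀ G ∈ easyF (n₁ + t) s', ¬ ∀ i, G (glue (θ i).1 (g (θ i).1)) = (θ i).2
        · apply Finset.mem_union_left
          rw [hWdef, Finset.mem_filter]
          exact ⟨Finset.mem_univ _, h1, h2⟩
        · push Not at h2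
          obtain ⟨G, hG, hfit⟩ := h2
          apply Finset.mem_union_right
          apply Finset.mem_union_right
          rw [hB2, Finset.mem_biUnion]
          exact ⟨G, hG, Finset.mem_filter.mpr ⟨Finset.mem_univ _, hfit⟩⟩
      · apply Finset.mem_union_right
        apply Finset.mem_union_left
        rw [hB1, Finset.mem_filter]
        exact ⟨Finset.mem_univ _, h1⟩
    have hcount := (Finset.card_le_card hcover).trans
      ((Finset.card_union_le _ _).trans (Nat.add_le_add_left (Finset.card_union_le _ _) _))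
    rw [Finset.card_univ, ← hN] at hcount
    have hb1 : 4 * B1.card ≤ N := by
      have h1 := card_noninj (n := n₁) (M := M)
      rw [← hB1, ← hN] at h1
      have h2 : (4 * B1.card) * 2 ^ n₁ ≤ N * 2 ^ n₁ := by
        calc (4 * B1.card) * 2 ^ n₁ = 4 * (B1.card * 2 ^ n₁) := by ring
          _ ≤ 4 * (M ^ 2 * N) := Nat.mul_le_mul_left _ h1
          _ ≤ (8 * M ^ 2) * N := by nlinarith [Nat.zero_le (M ^ 2 * N)]
          _ ≤ 2 ^ n₁ * N := Nat.mul_le_mul_right _ hM2
          _ = N * 2 ^ n₁ := Nat.mul_comm _ _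
      exact Nat.le_of_mul_le_mul_right h2 (by positivity)
    have hb2 : 4 * B2.card ≤ N := by
      have h1 : B2.card * 2 ^ M ≤ (easyF (n₁ + t) s').card * N := by
        calc B2.card * 2 ^ M ≤ (∑ G ∈ easyF (n₁ + t) s',
              ((univ : Finset (Fin M → (Fin n₁ → Bool) × Bool)).filter
                (fun θ => ∀ i, G (glue (θ i).1 (g (θ i).1)) = (θ i).2)).card) * 2 ^ M :=
              Nat.mul_le_mul_right _ Finset.card_biUnion_le
          _ = ∑ G ∈ easyF (n₁ + t) s', ((univ : Finset (Fin M → (Fin n₁ → Bool) × Bool)).filter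
                (fun θ => ∀ i, G (glue (θ i).1 (g (θ i).1)) = (θ i).2)).card * 2 ^ M := by
              rw [Finset.sum_mul]
          _ = ∑ _G ∈ easyF (n₁ + t) s', N := by
              refine Finset.sum_congr rfl fun G _ => ?_
              exact card_fit fun x => G (glue x (g x))
          _ = (easyF (n₁ + t) s').card * N := by rw [Finset.sum_const, smul_eq_mul]
      have h2 : 4 * (easyF (n₁ + t) s').card ≤ 2 ^ M := by
        set n := n₁ + t with hnn
        have hn29 : 29 ≤ n := hn.trans hle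
        have h3 := card_easyF (n := n) (by omega) s'
        have h10 : s' ≤ n * s' := Nat.le_mul_of_pos_left _ (by omega)
        have h11 : n ≤ n * s' := Nat.le_mul_of_pos_right _ (by omega)
        have h12 : 29 * (n * s') ≤ n ^ 2 * s' := by
          calc 29 * (n * s') ≤ n * (n * s') := Nat.mul_le_mul_right _ hn29
            _ = n ^ 2 * s' := by ring
        have h4 : s' + n ≤ M := by omega
        have h5 : 8 * (s' + n) ^ 2 ≤ 2 ^ n := by
          refine le_trans ?_ (hM2.trans (Nat.pow_le_pow_right (by norm_num) hle))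
          exact Nat.mul_le_mul_left _ (Nat.pow_le_pow_left h4 2)
        have h6 : 2 + n * (s' + 1) ≤ M := by
          have h13 : n * (s' + 1) = n * s' + n := by ring
          omega
        calc 4 * (easyF n s').card ≤ 4 * (8 * (s' + n) ^ 2) ^ (s' + 1) :=
              Nat.mul_le_mul_left _ h3
          _ ≤ 4 * (2 ^ n) ^ (s' + 1) := by
              apply Nat.mul_le_mul_left
              exact Nat.pow_le_pow_left h5 _
          _ = 2 ^ (2 + n * (s' + 1)) := by
              rw [← pow_mul, pow_add]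
              norm_num
          _ ≤ 2 ^ M := Nat.pow_le_pow_right (by norm_num) h6
      have h3 : (4 * B2.card) * 2 ^ M ≤ N * 2 ^ M := by
        calc (4 * B2.card) * 2 ^ M = 4 * (B2.card * 2 ^ M) := by ring
          _ ≤ 4 * ((easyF (n₁ + t) s').card * N) := Nat.mul_le_mul_left _ h1
          _ = (4 * (easyF (n₁ + t) s').card) * N := by ring
          _ ≤ 2 ^ M * N := Nat.mul_le_mul_right _ h2
          _ = N * 2 ^ M := Nat.mul_comm _ _
      exact Nat.le_of_mul_le_mul_right h3 (by positivity)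
    omega

end Pool.Agent.Z45.MN
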