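import Pool.Agent.Z45.MN.Hidden

/-!
Random sets of entries without negated inputs.
-/

set_option autoImplicit false

namespace Pool.Agent.Z45.MN

open Finset Pool.Agent.Helper80K3

/-- the entries with value zero -/
def zeros {n D : ℕ} (f : (Fin n → Bool) → Fin D) : Set (Fin n → Bool) := {z | (f z : ℕ) = 0}

/-- gap Partial MCSP needs large circuits without negated inputs at the entries in `Z` -/
def Hard (n : ℕ) (δ : ℝ) (Z : Set (Fin n → Bool)) : Prop :=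
  ∀ w s s' : ℕ, 1 ≤ w → 9 * n ^ 4 * w ^ 2 ≤ s → s ≤ s' → (s' : ℝ) ≤ (2 : ℝ) ^ (δ * n) →
    ∀ (L : List (((Fin n → Bool) × Bool → Bool) → Bool)) (φ : ((Fin n → Bool) × Bool → Bool) → Bool),
      NProg Z L → NAv Z L φ →
      (∀ T : PTable n, (∃ G, HasSize G s ∧ Consistent T G) → φ (enc T) = false) →
      (∀ T : PTable n, (∀ G, HasSize G s' → ¬ Consistent T G) → φ (enc T) = true) →
      2 ^ w ≤ L.length

section Count

variable {n₁ t D : ℕ}

/-- bits from residues modulo two -/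
def bts (u : Fin t → ZMod 2) : Fin t → Bool := fun j => decide (u j = 1)

lemma bts_inj : Function.Injective (bts (t := t)) := by
  intro u u' h
  funext j
  have h1 : decide (u j = 1) = decide (u' j = 1) := congrFun h j
  rw [decide_eq_decide] at h1
  generalize u j = a at h1
  generalize u' j = b at h1
  revert a b
  decide

/-- the places -/
def slt : (Fin n₁ → Bool) × (Fin t → ZMod 2) ↪ (Fin (n₁ + t) → Bool) :=
  ⟨fun p => glue p.1 (bts p.2), by
    rintro ⟨x, u⟩ ⟨x', u'⟩ h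
    have h1 := @glue_inj n₁ t (x, bts u) (x', bts u') h
    rw [Prod.mk.injEq] at h1
    rw [h1.1, bts_inj h1.2]⟩

lemma not_bad {f : (Fin (n₁ + t) → Bool) → Fin D}
    (hf : f ∉ Pool.Agent.Y630.NW.Bad (slt (n₁ := n₁) (t := t)) D) :
    ∀ x : Fin n₁ → Bool, ∃ u, glue x u ∈ zeros f := by
  intro x
  by_contra hcon
  push Not at hcon
  exact hf ⟨x, fun g => hcon (bts g)⟩

lemma places {K : ℕ} (hD : 0 < D) {a b : ℝ} (ha : 0 < a)
    (hK : D * (Real.log a + b) ≤ K) : a * (1 - 1 / (D : ℝ)) ^ K ≤ Real.exp (-b) := by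
  have hDR : (0 : ℝ) < D := by exact_mod_cast hD
  have h0 : (0 : ℝ) ≤ 1 - 1 / (D : ℝ) := by
    rw [sub_nonneg, div_le_one hDR]
    exact_mod_cast hD
  have h1 : (1 - 1 / (D : ℝ)) ≤ Real.exp (-(1 / D)) := by
    have := Real.add_one_le_exp (-(1 / (D : ℝ)))
    linarith
  have h2 : (1 - 1 / (D : ℝ)) ^ K ≤ Real.exp (-(K / D)) := by
    calc (1 - 1 / (D : ℝ)) ^ K ≤ Real.exp (-(1 / D)) ^ K := pow_le_pow_left₀ h0 h1 K
      _ = Real.exp (-(K / D)) := by
          rw [← Real.exp_nat_mul]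
          congr 1
          ring
  have h3 : Real.log a + b ≤ K / D := by
    rw [le_div_iff₀ hDR]
    linarith
  have h4 : Real.exp (-(K / D)) ≤ Real.exp (-(Real.log a + b)) := by
    apply Real.exp_le_exp.mpr
    linarith
  have h5 : a * Real.exp (-(Real.log a + b)) = Real.exp (-b) := by
    rw [neg_add, Real.exp_add, Real.exp_neg (Real.log a), Real.exp_log ha, ← mul_assoc,
      mul_inv_cancel₀ ha.ne', one_mul]
  calc a * (1 - 1 / (D : ℝ)) ^ K ≤ a * Real.exp (-(Real.log a + b)) :=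
        mul_le_mul_of_nonneg_left (h2.trans h4) ha.le
    _ = Real.exp (-b) := h5

end Count

lemma ev_exp {a : ℝ} (ha : 0 < a) : ∃ n0 : ℕ, ∀ n : ℕ, n0 ≤ n →
    2 * (n : ℝ) ^ 2 + n + 8 ≤ (2 : ℝ) ^ (a * n) := by
  have hr : (1 : ℝ) < (2 : ℝ) ^ a := Real.one_lt_rpow (by norm_num) ha
  have h1 := tendsto_pow_const_div_const_pow_of_one_lt 2 hr
  have h2 := h1.eventually (gt_mem_nhds (show (0 : ℝ) < 1 / 11 by norm_num))
  obtain ⟨n0, hn0⟩ := Filter.eventually_atTop.1 h2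
  refine ⟨max n0 1, fun n hn => ?_⟩
  have h3 := hn0 n ((le_max_left _ _).trans hn)
  have hn1 : (1 : ℝ) ≤ n := by exact_mod_cast (le_max_right n0 1).trans hn
  have hpos : (0 : ℝ) < ((2 : ℝ) ^ a) ^ n := by positivity
  rw [div_lt_iff₀ hpos] at h3
  rw [Real.rpow_mul (by norm_num), Real.rpow_natCast]
  nlinarith

theorem main (θ δ : ℝ) (hθ : 0 ≤ θ) (hδ : 0 < δ) (hθδ : δ < (1 - θ) / 3) :
    ∃ η : ℝ, 0 < η ∧ ∃ n0 : ℕ, ∀ n : ℕ, n0 ≤ n → ∀ D : ℕ, 0 < D → (D : ℝ) ≤ (2 : ℝ) ^ (θ * n) →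
      ({f : (Fin n → Bool) → Fin D | ¬ Hard n δ (zeros f)}.ncard : ℝ) ≤
        Real.exp (-(2 : ℝ) ^ (η * n)) * (D : ℝ) ^ (2 ^ n) := by
  classical
  set η' : ℝ := (1 - θ - 3 * δ) / 2 with hη'
  have hη'0 : 0 < η' := by rw [hη']; linarith
  set η : ℝ := η' / 3 with hη
  have hη0 : 0 < η := by positivity
  have hρ : 3 * δ + η' = 1 - θ - η' := by rw [hη']; ring
  obtain ⟨n0, hn0⟩ := ev_exp hη0
  obtain ⟨n1, hn1⟩ := exists_nat_ge (3 / (1 - θ - η'))
  refine ⟨η, hη0, max n0 (max n1 3), fun n hn D hD hDθ => ?_⟩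
  have e1 := hn0 n ((le_max_left _ _).trans hn)
  have hn3 : 3 ≤ n := (le_max_right _ _).trans ((le_max_right _ _).trans hn)
  have hn3R : (3 : ℝ) ≤ n := by exact_mod_cast hn3
  have hn0R : (0 : ℝ) < n := by linarith
  have hρ0 : 0 < 1 - θ - η' := by rw [← hρ]; positivity
  have e2 : 3 ≤ (1 - θ - η') * n := by
    have h1 : (n1 : ℝ) ≤ n := by exact_mod_cast (le_max_left _ _).trans ((le_max_right _ _).trans hn)
    have h2 := hn1.trans h1
    rw [div_le_iff₀ hρ0] at h2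
    linarith
  set t : ℕ := ⌈(θ + η') * n⌉₊ with ht
  have ht1 : (θ + η') * n ≤ t := Nat.le_ceil _
  have ht2 : (t : ℝ) ≤ (θ + η') * n + 1 := (Nat.ceil_lt_add_one (by positivity)).le
  have htn : t ≤ n := by
    have : (t : ℝ) ≤ n := by linarith
    exact_mod_cast this
  obtain ⟨n₁, hn₁⟩ : ∃ n₁, n = n₁ + t := ⟨n - t, by omega⟩
  have hn₁R : (n : ℝ) = n₁ + t := by exact_mod_cast hn₁
  have hn₁1 : (2 : ℝ) ≤ n₁ := by linarith
  have hn₁1' : 1 ≤ n₁ := by
    have : (1 : ℝ) ≤ n₁ := by linarith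
    exact_mod_cast this
  have hn₁lo : (1 - θ - η') * n - 1 ≤ n₁ := by linarith
  -- the condition on the size
  have hbig : (n : ℝ) ^ 2 * (2 : ℝ) ^ (δ * n) ≤ ((2 ^ (n₁ / 3) : ℕ) : ℝ) := by
    have h1 : (n₁ : ℝ) - 2 ≤ 3 * ((n₁ / 3 : ℕ) : ℝ) := by
      have : n₁ ≤ 3 * (n₁ / 3) + 2 := by omega
      have h2 : (n₁ : ℝ) ≤ 3 * ((n₁ / 3 : ℕ) : ℝ) + 2 := by exact_mod_cast this
      linarith
    have h2 : δ * n + η * n - 1 ≤ ((n₁ / 3 : ℕ) : ℝ) := by
      have h3 : 3 * (δ * n + η * n - 1) = (3 * δ + η') * n - 3 := by rw [hη]; ring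
      rw [hρ] at h3
      linarith
    push_cast
    calc (n : ℝ) ^ 2 * (2 : ℝ) ^ (δ * n) ≤ ((2 : ℝ) ^ (η * n) / 2) * (2 : ℝ) ^ (δ * n) := by
          apply mul_le_mul_of_nonneg_right _ (by positivity)
          linarith
      _ = (2 : ℝ) ^ (δ * n + η * n - 1) := by
          rw [Real.rpow_sub (by norm_num), Real.rpow_add (by norm_num), Real.rpow_one]
          ring
      _ ≤ (2 : ℝ) ^ (((n₁ / 3 : ℕ) : ℝ)) := Real.rpow_le_rpow_of_exponent_le (by norm_num) h2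
      _ = (2 : ℝ) ^ (n₁ / 3) := Real.rpow_natCast _ _
  -- the number of bad sets
  have hfew : D * (Real.log ((2 : ℝ) ^ n₁) + (2 : ℝ) ^ (η * n)) ≤ ((2 ^ t : ℕ) : ℝ) := by
    have h1 : Real.log ((2 : ℝ) ^ n₁) ≤ n := by
      rw [Real.log_pow]
      have h2 : Real.log 2 ≤ 1 := by
        have := Real.log_two_lt_d9
        linarith
      have h3 : (0 : ℝ) ≤ n₁ := by linarith
      have h4 : (0 : ℝ) ≤ t := Nat.cast_nonneg _
      nlinarith
    have h2 : (n : ℝ) + (2 : ℝ) ^ (η * n) ≤ (2 : ℝ) ^ (η' * n) := by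
      have h3 : (2 : ℝ) ^ (η' * n) = (2 : ℝ) ^ (η * n) * ((2 : ℝ) ^ (η * n) * (2 : ℝ) ^ (η * n)) := by
        rw [← Real.rpow_add (by norm_num), ← Real.rpow_add (by norm_num)]
        congr 1
        rw [hη]; ring
      rw [h3]
      have h4 : (n : ℝ) + 8 ≤ (2 : ℝ) ^ (η * n) := by nlinarith
      have h5 : 2 ≤ (2 : ℝ) ^ (η * n) := by linarith
      have h6 : 2 * (2 : ℝ) ^ (η * n) ≤ (2 : ℝ) ^ (η * n) * (2 : ℝ) ^ (η * n) := by nlinarith
      nlinarith
    calc D * (Real.log ((2 : ℝ) ^ n₁) + (2 : ℝ) ^ (η * n)) ≤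
        (2 : ℝ) ^ (θ * n) * (2 : ℝ) ^ (η' * n) := by
          apply mul_le_mul hDθ (by linarith) _ (by positivity)
          have : 0 ≤ Real.log ((2 : ℝ) ^ n₁) := Real.log_nonneg (one_le_pow₀ (by norm_num))
          positivity
      _ = (2 : ℝ) ^ ((θ + η') * n) := by
          rw [← Real.rpow_add (by norm_num)]
          congr 1
          ring
      _ ≤ (2 : ℝ) ^ (t : ℝ) := Real.rpow_le_rpow_of_exponent_le (by norm_num) ht1
      _ = ((2 ^ t : ℕ) : ℝ) := by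
          rw [Real.rpow_natCast]
          push_cast
          rfl
  have hcount := places (D := D) (K := 2 ^ t) hD (a := (2 : ℝ) ^ n₁) (b := (2 : ℝ) ^ (η * n))
    (by positivity) hfew
  clear_value t
  subst hn₁
  have hb := Pool.Agent.Y630.NW.ncard_bad (slt (n₁ := n₁) (t := t)) hD
  have hc1 : Fintype.card (Fin n₁ → Bool) = 2 ^ n₁ := by simp
  have hc2 : Fintype.card (Fin t → ZMod 2) = 2 ^ t := by simp [ZMod.card]
  have hc3 : Fintype.card (Fin (n₁ + t) → Bool) = 2 ^ (n₁ + t) := by simp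
  rw [hc1, hc2, hc3] at hb
  have hsub : ({f : (Fin (n₁ + t) → Bool) → Fin D | ¬ Hard (n₁ + t) δ (zeros f)}.ncard : ℝ) ≤
      ((Pool.Agent.Y630.NW.Bad (slt (n₁ := n₁) (t := t)) D).ncard : ℝ) := by
    have : {f : (Fin (n₁ + t) → Bool) → Fin D | ¬ Hard (n₁ + t) δ (zeros f)}.ncard ≤
        (Pool.Agent.Y630.NW.Bad (slt (n₁ := n₁) (t := t)) D).ncard := by
      apply Set.ncard_le_ncard _ (Set.toFinite _)
      intro f hf
      by_contra hfb
      apply hf
      intro w s s' hw hs hss hs' L φ hL hφ hrej hacc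
      refine hidden hn₁1' hw hs hss ?_ (not_bad hfb) hL hφ hrej hacc
      have h1 : (((n₁ + t) ^ 2 * s' : ℕ) : ℝ) ≤ ((2 ^ (n₁ / 3) : ℕ) : ℝ) := by
        refine le_trans ?_ hbig
        push_cast
        apply mul_le_mul_of_nonneg_left _ (by positivity)
        push_cast at hs'
        exact hs'
      exact_mod_cast h1
    exact_mod_cast this
  refine hsub.trans (hb.trans ?_)
  apply mul_le_mul_of_nonneg_right _ (by positivity)
  push_cast at hcount ⊢
  exact hcount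

end Pool.Agent.Z45.MN
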